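import Pool.Agent.Helper36.RN.GoalsH

/-!
# Packet FIB of project RFn (existence part): local existence of the framed Ricci flow
-/

set_option autoImplicit false

namespace Pool.Agent.Helper5.RN

open Set Filter Topology Pool.Agent.Helper47.RFn Pool.Agent.Helper36.RN

variable {n : ℕ}

theorem smFam1_congr {I : Set ℝ} {f f' g g' : ℝ → EE n → ℝ} (h : SmFam1 I f f')
    (h1 : ∀ t ∈ I, ∀ x, x ≠ 0 → g t x = f t x) (h2 : ∀ t ∈ I, ∀ x, x ≠ 0 → g' t x = f' t x) :
    SmFam1 I g g' := by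
  refine ⟨⟨fun t ht => sm_congr (h.fam.sm t ht) (h1 t ht), fun w => ?_⟩,
    ⟨fun t ht => sm_congr (h.fam'.sm t ht) (h2 t ht), fun w => ?_⟩, fun w x hx t ht => ?_⟩
  · refine (h.fam.cont w).congr fun p hp => ?_
    exact Ew_congr (h1 p.1 hp.1) w p.2 hp.2
  · refine (h.fam'.cont w).congr fun p hp => ?_
    exact Ew_congr (h2 p.1 hp.1) w p.2 hp.2
  · have h3 := h.der w x hx t ht
    rw [Ew_congr (h2 t ht) w x hx]
    exact h3.congr (fun s hs => Ew_congr (h1 s hs) w x hx) (Ew_congr (h1 t ht) w x hx)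

/-- matrix fields from families of elements of `XS n`, the identity at `0` -/
noncomputable def mkM (B : Ix n → Ix n → XS n) (x : EE n) : Matrix (Fin (n + 1)) (Fin (n + 1)) ℝ :=
  open Classical in if h : x ≠ 0 then Matrix.of (fun a i => (B a i).1 ⟨x, h⟩) else 1

theorem mkM_of_ne (B : Ix n → Ix n → XS n) {x : EE n} (h : x ≠ 0) (a i : Ix n) :
    mkM B x a i = (B a i).1 ⟨x, h⟩ := by
  rw [mkM, dif_pos h]
  rfl

theorem mkM_zero (B : Ix n → Ix n → XS n) : mkM B (0 : EE n) = 1 := by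
  rw [mkM, dif_neg (not_not.2 rfl)]

theorem mkM_sm (B : Ix n → Ix n → XS n) (a i : Ix n) : Sm (fun x => mkM B x a i) :=
  sm_congr (sm (B a i)) fun x hx => by rw [mkM_of_ne B hx, ext_of_ne _ hx]

theorem toXS_mkM (B : Ix n → Ix n → XS n) (h : ∀ a i, Sm (fun x => mkM B x a i)) :
    (fun a i => toXS (fun x => mkM B x a i) (h a i)) = B := by
  funext a i
  refine XS_ext fun x => ?_
  rw [toXS_apply]
  exact mkM_of_ne B x.2 a i

/-- Packet FIB. -/
theorem fib : G_FIB := by
  intro hF hD hC n hn A0 θ0 h0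
  have hinv' : ∀ x, θ0 x * A0 x = 1 := fun x => mul_eq_one_comm.1 (h0.inv x)
  have hyp : FrameHyp Ee nu (fun a i => toXS (fun x => A0 x a i) (h0.smA a i))
      (fun i a => toXS (fun x => θ0 x i a) (h0.smt i a)) := by
    refine ⟨Ee_comm, Ee_nu, nu_sq, nu_Ee, fun a b => ?_, fun i j => ?_, fun a => ?_⟩
    · refine XS_ext fun x => ?_
      rw [sum_val]
      have h1 : ∑ i, A0 x.1 a i * θ0 x.1 i b = (1 : Matrix (Fin (n + 1)) (Fin (n + 1)) ℝ) a b := by
        rw [← h0.inv x.1, Matrix.mul_apply]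
      refine Eq.trans ?_ (h1.trans ?_)
      · exact Finset.sum_congr rfl fun i _ => rfl
      · rw [Matrix.one_apply]
        split_ifs <;> rfl
    · refine XS_ext fun x => ?_
      rw [sum_val]
      have h1 : ∑ a, θ0 x.1 i a * A0 x.1 a j = (1 : Matrix (Fin (n + 1)) (Fin (n + 1)) ℝ) i j := by
        rw [← hinv' x.1, Matrix.mul_apply]
      refine Eq.trans ?_ (h1.trans ?_)
      · exact Finset.sum_congr rfl fun i _ => rfl
      · rw [Matrix.one_apply]
        split_ifs <;> rfl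
    · refine XS_ext fun x => ?_
      rw [sum_val, sum_val]
      have h1 := h0.nA x.1 a
      have e1 : ∀ i, (toXS (fun x => A0 x a i) (h0.smA a i) * nu i).1 x =
          (A0 x.1 a i * x.1 i) / ‖x.1‖ := fun i => by
        rw [mul_val, toXS_apply, nu_apply, nn]
        ring
      have e2 : ∀ i, (toXS (fun x => θ0 x i a) (h0.smt i a) * nu i).1 x =
          (θ0 x.1 i a * x.1 i) / ‖x.1‖ := fun i => by
        rw [mul_val, toXS_apply, nu_apply, nn]
        ring
      simp only [e1, e2]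
      rw [← Finset.sum_div, ← Finset.sum_div, h1]
  obtain ⟨τ, hτ, A, θ, hA0, ht0, hyp', dA, dt⟩ := hF n (by omega) _ _ hyp
  refine ⟨τ, hτ, fun t => mkM (A t), fun t => mkM (θ t), ⟨?_, ?_, ?_, ?_⟩, ?_⟩
  · intro t ht x
    by_cases hx : x = 0
    · subst hx
      rw [mkM_zero, mkM_zero, mul_one]
    · ext a b
      rw [Matrix.mul_apply]
      have h1 := congrArg (fun f : XS n => f.1 ⟨x, hx⟩) ((hyp' t ht).At a b)
      simp only [sum_val, mul_val] at h1
      rw [Matrix.one_apply]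
      have h2 : ((if a = b then (1 : XS n) else 0) : XS n).1 ⟨x, hx⟩ = if a = b then 1 else 0 := by
        split_ifs <;> rfl
      rw [← h2, ← h1]
      exact Finset.sum_congr rfl fun i _ => by rw [mkM_of_ne _ hx, mkM_of_ne _ hx]
  · intro t ht x a
    by_cases hx : x = 0
    · subst hx
      simp
    · have h1 := congrArg (fun f : XS n => f.1 ⟨x, hx⟩) ((hyp' t ht).nA a)
      simp only [sum_val, mul_val] at h1
      have hne : ‖x‖ ≠ 0 := norm_ne_zero_iff.2 hx
      have h2 := congrArg (fun r => ‖x‖ * r) h1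
      simp only [Finset.mul_sum] at h2
      have e1 : ∀ i, ‖x‖ * ((A t a i).1 ⟨x, hx⟩ * (nu i).1 ⟨x, hx⟩) = mkM (A t) x a i * x i :=
        fun i => by
          rw [mkM_of_ne _ hx, nu_apply, nn]
          field_simp
      have e2 : ∀ i, ‖x‖ * ((θ t i a).1 ⟨x, hx⟩ * (nu i).1 ⟨x, hx⟩) = mkM (θ t) x i a * x i :=
        fun i => by
          rw [mkM_of_ne _ hx, nu_apply, nn]
          field_simp
      simp only [e1, e2] at h2
      exact h2
  · intro a i
    refine smFam1_congr (hC n τ _ _ (dA a i)) (fun t ht x hx => ?_) (fun t ht x hx => ?_)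
    · rw [mkM_of_ne _ hx, ext_of_ne _ hx]
    · have hd := (hD n (mkM (A t)) (mkM (θ t)) (mkM_sm (A t)) (mkM_sm (θ t))).2.2.2.2.1
      rw [toXS_mkM, toXS_mkM] at hd
      rw [ext_of_ne _ hx, sum_val]
      refine Finset.sum_congr rfl fun b _ => ?_
      rw [mul_val, mkM_of_ne _ hx, ← (hd a b).2 ⟨x, hx⟩]
  · intro i a
    refine smFam1_congr (hC n τ _ _ (dt i a)) (fun t ht x hx => ?_) (fun t ht x hx => ?_)
    · rw [mkM_of_ne _ hx, ext_of_ne _ hx]
    · have hd := (hD n (mkM (A t)) (mkM (θ t)) (mkM_sm (A t)) (mkM_sm (θ t))).2.2.2.2.1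
      rw [toXS_mkM, toXS_mkM] at hd
      rw [ext_of_ne _ hx, neg_val, sum_val]
      congr 1
      refine Finset.sum_congr rfl fun b _ => ?_
      rw [mul_val, mkM_of_ne _ hx, ← (hd b a).2 ⟨x, hx⟩]
  · intro x hx
    constructor
    · ext a i
      change mkM (A 0) x a i = _
      rw [mkM_of_ne _ hx, hA0]
      rfl
    · ext i a
      change mkM (θ 0) x i a = _
      rw [mkM_of_ne _ hx, ht0]
      rfl

end Pool.Agent.Helper5.RN
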